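import Pool.Agent.H92.OG.Defs

set_option autoImplicit false

/-!
# The sum of `chi ^ 2` (note 5773, (1))

`chi s = 1 - R + ∑ U i` with `R g = n` for `g = 1`, else `0`, and
`U i g = (1/m_i) ∑ x, ∑ k, if x * s i ^ k * x⁻¹ = g then eps m_i k else 0`.
Expand the square: `∑ 1 = n`, `∑ R ^ 2 = n ^ 2`, `∑ R = n`, `∑ g, U i g = 0` (`sum_eps`),
`∑ g, R g * U i g = n * U i 1 = n * (n (1 - 1/m_i) / 2)` (see the proof of `chi_one`), so the mixed terms
give `-2 n - n ^ 2 * nu`. For the squares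
`∑ g, U i g * U j g = (1/(m_i m_j)) ∑ x, ∑ y, P (x * s i * x⁻¹) (y * s j * y⁻¹)`, and
`P (x a x⁻¹) (y b y⁻¹) = P a ((x⁻¹ y) b (x⁻¹ y)⁻¹)`, so this is `(n/(m_i m_j)) ∑ w, P (s i) (w * s j * w⁻¹)`
(`(x * a * x⁻¹) ^ k = x * a ^ k * x⁻¹` is `conj_pow`).
-/

namespace Pool.Agent.H92.OG

open Finset Pool.Agent.H82.CO

variable {G : Type} [Group G] [Fintype G] {N : ℕ}

open Classical in
/-- The function induced from the cyclic group generated by `a`, times the order of `a`. -/
private noncomputable def smF (a g : G) : ℂ :=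
  ∑ x : G, ∑ k ∈ range (orderOf a), if x * a ^ k * x⁻¹ = g then eps (orderOf a) k else 0

open Classical in
private noncomputable def smR (g : G) : ℂ := if g = 1 then (Nat.card G : ℂ) else 0

private theorem sm_chi (s : Fin N → G) (g : G) :
    chi s g = 1 - smR g + ∑ i, (1 / (orderOf (s i) : ℂ)) * smF (s i) g := rfl

private theorem sm_sum (a : G) (c : G → ℂ) :
    ∑ g : G, smF a g * c g = ∑ x : G, ∑ k ∈ range (orderOf a),
      eps (orderOf a) k * c (x * a ^ k * x⁻¹) := by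
  classical
  have h1 : ∀ g : G, smF a g * c g = ∑ x : G, ∑ k ∈ range (orderOf a),
      if x * a ^ k * x⁻¹ = g then eps (orderOf a) k * c g else 0 := by
    intro g
    unfold smF
    rw [sum_mul]
    refine sum_congr rfl fun x _ => ?_
    rw [sum_mul]
    refine sum_congr rfl fun k _ => ?_
    split_ifs with h
    · rfl
    · rw [zero_mul]
  rw [sum_congr rfl fun g _ => h1 g, sum_comm]
  refine sum_congr rfl fun x _ => ?_
  rw [sum_comm]
  refine sum_congr rfl fun k _ => ?_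
  rw [sum_ite_eq, if_pos (mem_univ _)]

private theorem sm_class (b x h : G) : smF b (x * h * x⁻¹) = smF b h := by
  classical
  unfold smF
  refine Fintype.sum_equiv (Equiv.mulLeft x⁻¹) _ _ fun y => ?_
  refine sum_congr rfl fun k _ => ?_
  have h2 : y * b ^ k * y⁻¹ = x * h * x⁻¹ ↔
      (Equiv.mulLeft x⁻¹ y) * b ^ k * (Equiv.mulLeft x⁻¹ y)⁻¹ = h := by
    rw [Equiv.coe_mulLeft]
    constructor
    · intro h3
      calc x⁻¹ * y * b ^ k * (x⁻¹ * y)⁻¹ = x⁻¹ * (y * b ^ k * y⁻¹) * x := by group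
        _ = h := by rw [h3]; group
    · intro h3
      rw [← h3]
      group
  by_cases h3 : y * b ^ k * y⁻¹ = x * h * x⁻¹
  · rw [if_pos h3, if_pos (h2.1 h3)]
  · rw [if_neg h3, if_neg fun h4 => h3 (h2.2 h4)]

omit [Fintype G] in
private theorem sm_ord (w b : G) : orderOf (w * b * w⁻¹) = orderOf b := by
  have h : w * b * w⁻¹ = MulAut.conj w b := rfl
  rw [h]
  exact MulEquiv.orderOf_eq _ _

private theorem sm_P (a b : G) :
    ∑ w : G, P a (w * b * w⁻¹) = ∑ k ∈ range (orderOf a), eps (orderOf a) k * smF b (a ^ k) := by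
  classical
  unfold P smF
  rw [sum_comm]
  refine sum_congr rfl fun k _ => ?_
  rw [mul_sum]
  refine sum_congr rfl fun w _ => ?_
  rw [sm_ord, mul_sum]
  refine sum_congr rfl fun l _ => ?_
  rw [conj_pow]
  by_cases h : a ^ k = w * b ^ l * w⁻¹
  · rw [if_pos h, if_pos h.symm]
  · rw [if_neg h, if_neg fun h4 => h h4.symm, mul_zero]

private theorem sm_FF (a b : G) :
    ∑ g : G, smF a g * smF b g = (Nat.card G : ℂ) * ∑ w : G, P a (w * b * w⁻¹) := by
  rw [sm_sum a (smF b), sm_P]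
  rw [sum_congr rfl fun x _ => sum_congr rfl fun k _ => by rw [sm_class b x (a ^ k)]]
  rw [sum_const, card_univ, nsmul_eq_mul, Nat.card_eq_fintype_card]

private theorem sm_F (a : G) : ∑ g : G, smF a g = 0 := by
  have h := sm_sum a fun _ => 1
  simp only [mul_one] at h
  rw [h, sum_congr rfl fun x _ => sum_eps (orderOf_pos a), sum_const_zero]

private theorem sm_FR (a : G) :
    ∑ g : G, smF a g * smR g = (Nat.card G : ℂ) ^ 2 * ((((orderOf a : ℝ) - 1) / 2 : ℝ) : ℂ) := by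
  classical
  rw [sm_sum a smR]
  have h1 : ∀ x : G, ∑ k ∈ range (orderOf a), eps (orderOf a) k * smR (x * a ^ k * x⁻¹) =
      (Nat.card G : ℂ) * ((((orderOf a : ℝ) - 1) / 2 : ℝ) : ℂ) := by
    intro x
    rw [sum_eq_single_of_mem 0 (mem_range.2 (orderOf_pos a)), eps_zero (orderOf_pos a)]
    · unfold smR
      rw [if_pos (by rw [pow_zero, mul_one, mul_inv_cancel])]
      ring
    · intro k hk hk0
      unfold smR
      rw [if_neg, mul_zero]
      intro h2
      have h3 : a ^ k = 1 := by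
        have h4 : a ^ k = x⁻¹ * (x * a ^ k * x⁻¹) * x := by group
        rw [h4, h2]
        group
      exact pow_ne_one_of_lt_orderOf hk0 (mem_range.1 hk) h3
  rw [sum_congr rfl fun x _ => h1 x, sum_const, card_univ, nsmul_eq_mul,
    ← Nat.card_eq_fintype_card]
  ring

private theorem sm_RR : ∑ g : G, smR g * smR g = (Nat.card G : ℂ) ^ 2 := by
  classical
  have h1 : ∀ g : G, smR g * smR g = if g = 1 then (Nat.card G : ℂ) ^ 2 else 0 := by
    intro g
    unfold smR
    split_ifs with h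
    · ring
    · ring
  rw [sum_congr rfl fun g _ => h1 g, sum_ite_eq', if_pos (mem_univ _)]

private theorem sm_R : ∑ g : G, smR g = (Nat.card G : ℂ) := by
  classical
  unfold smR
  rw [sum_ite_eq', if_pos (mem_univ _)]

theorem sum_chi_sq (s : Fin N → G) :
    (∑ g : G, chi s g ^ 2).re = (Nat.card G : ℝ) ^ 2 * (1 - nu s) - Nat.card G +
      Nat.card G * ∑ i, ∑ j, ∑ w : G, q (s i) (w * s j * w⁻¹) := by
  classical
  have hm : ∀ i, (orderOf (s i) : ℂ) ≠ 0 := fun i => by exact_mod_cast (orderOf_pos (s i)).ne'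
  have hm' : ∀ i, (orderOf (s i) : ℝ) ≠ 0 := fun i => by exact_mod_cast (orderOf_pos (s i)).ne'
  -- the sum of the induced functions
  have hV : ∑ g : G, ∑ i, (1 / (orderOf (s i) : ℂ)) * smF (s i) g = 0 := by
    rw [sum_comm]
    refine sum_eq_zero fun i _ => ?_
    rw [← mul_sum, sm_F, mul_zero]
  have hVR : ∑ g : G, (∑ i, (1 / (orderOf (s i) : ℂ)) * smF (s i) g) * smR g =
      (Nat.card G : ℂ) ^ 2 * ((nu s / 2 : ℝ) : ℂ) := by
    have h1 : ∀ g : G, (∑ i, (1 / (orderOf (s i) : ℂ)) * smF (s i) g) * smR g =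
        ∑ i, (1 / (orderOf (s i) : ℂ)) * (smF (s i) g * smR g) := by
      intro g
      rw [sum_mul]
      refine sum_congr rfl fun i _ => ?_
      ring
    rw [sum_congr rfl fun g _ => h1 g, sum_comm]
    unfold nu
    rw [sum_div, Complex.ofReal_sum, mul_sum]
    refine sum_congr rfl fun i _ => ?_
    rw [← mul_sum, sm_FR]
    have := hm i
    push_cast
    field_simp
  have hVV : ∑ g : G, (∑ i, (1 / (orderOf (s i) : ℂ)) * smF (s i) g) *
      (∑ j, (1 / (orderOf (s j) : ℂ)) * smF (s j) g) =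
      ∑ i, ∑ j, (Nat.card G : ℂ) * ∑ w : G,
        (1 / (orderOf (s i) : ℂ)) * (1 / (orderOf (s j) : ℂ)) * P (s i) (w * s j * w⁻¹) := by
    have h1 : ∀ g : G, (∑ i, (1 / (orderOf (s i) : ℂ)) * smF (s i) g) *
        (∑ j, (1 / (orderOf (s j) : ℂ)) * smF (s j) g) =
        ∑ i, ∑ j, (1 / (orderOf (s i) : ℂ)) * (1 / (orderOf (s j) : ℂ)) *
          (smF (s i) g * smF (s j) g) := by
      intro g
      rw [sum_mul_sum]
      refine sum_congr rfl fun i _ => sum_congr rfl fun j _ => ?_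
      ring
    rw [sum_congr rfl fun g _ => h1 g, sum_comm]
    refine sum_congr rfl fun i _ => ?_
    rw [sum_comm]
    refine sum_congr rfl fun j _ => ?_
    rw [← mul_sum, sm_FF, ← mul_sum]
    ring
  have hre : (∑ i, ∑ j, (Nat.card G : ℂ) * ∑ w : G,
        (1 / (orderOf (s i) : ℂ)) * (1 / (orderOf (s j) : ℂ)) * P (s i) (w * s j * w⁻¹)).re =
      Nat.card G * ∑ i, ∑ j, ∑ w : G, q (s i) (w * s j * w⁻¹) := by
    rw [Complex.re_sum, mul_sum]
    refine sum_congr rfl fun i _ => ?_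
    rw [Complex.re_sum, mul_sum]
    refine sum_congr rfl fun j _ => ?_
    have h1 : (Nat.card G : ℂ) = ((Nat.card G : ℝ) : ℂ) := by push_cast; rfl
    rw [h1, Complex.re_ofReal_mul, Complex.re_sum]
    congr 1
    refine sum_congr rfl fun w _ => ?_
    have h2 : (1 / (orderOf (s i) : ℂ)) * (1 / (orderOf (s j) : ℂ)) =
        ((1 / (orderOf (s i) : ℝ) * (1 / (orderOf (s j) : ℝ)) : ℝ) : ℂ) := by push_cast; rfl
    rw [h2, Complex.re_ofReal_mul]
    unfold q
    rw [sm_ord]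
    ring
  have hsq : ∀ g : G, chi s g ^ 2 = 1 - 2 * smR g + smR g * smR g +
      2 * (∑ i, (1 / (orderOf (s i) : ℂ)) * smF (s i) g) -
      2 * ((∑ i, (1 / (orderOf (s i) : ℂ)) * smF (s i) g) * smR g) +
      (∑ i, (1 / (orderOf (s i) : ℂ)) * smF (s i) g) *
      (∑ j, (1 / (orderOf (s j) : ℂ)) * smF (s j) g) := by
    intro g
    rw [sm_chi]
    ring
  rw [sum_congr rfl fun g _ => hsq g, sum_add_distrib, sum_sub_distrib, sum_add_distrib,
    sum_add_distrib, sum_sub_distrib, ← mul_sum, ← mul_sum, ← mul_sum, hV, hVR, sm_R, sm_RR, hVV,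
    Complex.add_re, hre]
  have h1 : ∑ _g : G, (1 : ℂ) = (Nat.card G : ℂ) := by
    rw [sum_const, card_univ, nsmul_eq_mul, mul_one, Nat.card_eq_fintype_card]
  rw [h1]
  have h2 : ((Nat.card G : ℂ) - 2 * (Nat.card G : ℂ) + (Nat.card G : ℂ) ^ 2 + 2 * 0 -
      2 * ((Nat.card G : ℂ) ^ 2 * ((nu s / 2 : ℝ) : ℂ))) =
      (((Nat.card G : ℝ) ^ 2 * (1 - nu s) - Nat.card G : ℝ) : ℂ) := by
    push_cast
    ring
  rw [h2, Complex.ofReal_re]

end Pool.Agent.H92.OG
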