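import Pool.Agent.H82.CO.FS

set_option autoImplicit false

/-!
# Groups of odd order (MP_bf82d2_ag, notes 5773, 5782). Definitions.

`P a b` is the sum of `θ_a(s) θ_b(s)` over the common elements `s` of the cyclic groups generated by
`a` and `b`, where `θ_a (a ^ k) = eps m k`, `m` the order of `a` (see `Pool.Agent.H82.CO.Defs`).
-/

namespace Pool.Agent.H92.OG

open Finset Pool.Agent.H82.CO

variable {G : Type} [Group G] [Fintype G] {N : ℕ}

open Classical in
/-- The sum of `θ_a(s) θ_b(s)` over the common elements of the groups generated by `a` and `b`. -/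
noncomputable def P (a b : G) : ℂ :=
  ∑ k ∈ range (orderOf a), ∑ l ∈ range (orderOf b),
    if a ^ k = b ^ l then eps (orderOf a) k * eps (orderOf b) l else 0

/-- The normalized pairing. -/
noncomputable def q (a b : G) : ℝ := (P a b).re / ((orderOf a : ℝ) * orderOf b)

/-- One over the order. -/
noncomputable def y (a : G) : ℝ := 1 / (orderOf a : ℝ)

/-- `1 - 3 / m`. -/
noncomputable def z (a : G) : ℝ := 1 - 3 * y a

end Pool.Agent.H92.OG
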