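import Pool.Agent.H92.OG.Defs

set_option autoImplicit false

/-!
# The lower bound for all pairs (note 5773, (4))

Put `m = orderOf a`, `m' = orderOf b`, `c` the order of the intersection `C` of the two cyclic groups; `c ∣ m`,
`c ∣ m'`, and `C` consists of the `a ^ ((m / c) * i)`, `i < c`, and of the `b ^ ((m' / c) * j)`, `j < c`.
`P a b` is the sum over `C` of `θ_a(s) θ_b(s)`. The term of `s = 1` is `(m - 1)(m' - 1) / 4` (`eps_zero`). For
`s ≠ 1` the real part of the product is `1 / 4 - im θ_a(s) * im θ_b(s)` (`re_eps`), which is at least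
`1 / 4 - (im θ_a(s) ^ 2 + im θ_b(s) ^ 2) / 2`. `eps_scale`: `eps m k = 1 / (zeta m ^ k - 1)` for `0 < k < m`
(proof of `re_eps`), and `zeta (d * c) ^ (d * i) = zeta c ^ i`; so by `sum_im_sq` the sum of the squares of the
imaginary parts of `θ_a` over `C` is `(c - 1)(c - 2) / 12`, the same for `b`. Total
`(m - 1)(m' - 1) / 4 + (c - 1) / 4 - (c - 1)(c - 2) / 12`; divide by `m m'`.
-/

namespace Pool.Agent.H92.OG

open Finset Pool.Agent.H82.CO

variable {G : Type} [Group G] [Fintype G]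

private theorem eps_eq {m k : ℕ} (hk : 0 < k) (hkm : k < m) : eps m k = 1 / (zeta m ^ k - 1) := by
  have hm : 0 < m := by omega
  have hm' : (m : ℂ) ≠ 0 := by exact_mod_cast hm.ne'
  set w := zeta m ^ k with hw
  have hw1 : w - 1 ≠ 0 := by
    intro h
    have h1 : zeta m ^ k = zeta m ^ 0 := by rw [pow_zero, ← hw]; linear_combination h
    have := (zeta_prim hm).pow_inj hkm hm h1
    omega
  have hwm : w ^ m = 1 := by rw [hw, ← pow_mul, mul_comm, pow_mul, zeta_pow hm, one_pow]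
  have hg : ∑ a ∈ range m, w ^ a = 0 := by
    have h1 := geom_sum_mul w m
    rw [hwm, sub_self] at h1
    exact (mul_eq_zero.1 h1).resolve_right hw1
  have h1 := sum_mul_pow w m
  rw [hwm, hg, mul_zero, sub_zero, mul_one] at h1
  have h2 : eps m k = (∑ a ∈ range m, (a : ℂ) * w ^ a) / m := by
    rw [eps, sum_div]
    refine sum_congr rfl fun a _ => ?_
    rw [hw, ← pow_mul, mul_comm a k]
    ring
  rw [h2, eq_div_iff hw1, div_mul_eq_mul_div, h1, div_self hm']

private theorem zeta_scale {c d : ℕ} (hd : 0 < d) : zeta (d * c) ^ d = zeta c := by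
  have hd' : (d : ℂ) ≠ 0 := by exact_mod_cast hd.ne'
  unfold zeta
  rw [← Complex.exp_nat_mul]
  congr 1
  push_cast
  rw [mul_div_assoc', mul_div_mul_left _ _ hd']

theorem eps_scale {c d i : ℕ} (hd : 0 < d) (hi : 0 < i) (hic : i < c) :
    eps (d * c) (d * i) = eps c i := by
  rw [eps_eq (Nat.mul_pos hd hi) (Nat.mul_lt_mul_of_pos_left hic hd), eps_eq hi hic, pow_mul,
    zeta_scale hd]

omit [Fintype G] in
/-- The imaginary parts on a subgroup of a cyclic group. -/
private theorem sum_im_le [Finite G] (a : G) (C : Subgroup G) (hC : C ≤ Subgroup.zpowers a) (S : Finset ℕ)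
    (hS : ∀ k ∈ S, k < orderOf a ∧ a ^ k ∈ C) :
    ∑ k ∈ S, (eps (orderOf a) k).im ^ 2 ≤ ((Nat.card C : ℝ) - 1) * ((Nat.card C : ℝ) - 2) / 12 := by
  have hc : 0 < Nat.card C := Nat.card_pos
  have hdvd : Nat.card C ∣ orderOf a := by
    rw [← Nat.card_zpowers]
    exact Subgroup.card_dvd_of_le hC
  obtain ⟨d, hd⟩ := hdvd
  rw [mul_comm] at hd
  have hm : 0 < orderOf a := orderOf_pos a
  have hd0 : 0 < d := by
    rcases Nat.eq_zero_or_pos d with h | h
    · rw [h, zero_mul] at hd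
      omega
    · exact h
  have hsub : S ⊆ (range (Nat.card C)).image fun i => d * i := by
    intro k hk
    obtain ⟨h1, h2⟩ := hS k hk
    have h3 : (a ^ k) ^ Nat.card C = 1 := by
      have h4 : (⟨a ^ k, h2⟩ : C) ^ Nat.card C = 1 := pow_card_eq_one'
      have h5 := congrArg Subtype.val h4
      exact h5
    rw [← pow_mul] at h3
    have h6 : d * Nat.card C ∣ k * Nat.card C := by
      rw [← hd]
      exact orderOf_dvd_of_pow_eq_one h3
    obtain ⟨i, rfl⟩ := Nat.dvd_of_mul_dvd_mul_right hc h6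
    rw [mem_image]
    refine ⟨i, ?_, rfl⟩
    rw [mem_range]
    rw [hd] at h1
    exact Nat.lt_of_mul_lt_mul_left h1
  refine (sum_le_sum_of_subset_of_nonneg hsub fun _ _ _ => sq_nonneg _).trans ?_
  rw [sum_image fun i _ j _ h => Nat.eq_of_mul_eq_mul_left hd0 h]
  apply le_of_eq
  rw [← sum_im_sq hc]
  refine sum_congr rfl fun i hi => ?_
  rcases Nat.eq_zero_or_pos i with rfl | h
  · rw [mul_zero, eps_zero hm, eps_zero hc, Complex.ofReal_im, Complex.ofReal_im]
  · rw [hd, eps_scale hd0 h (mem_range.1 hi)]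

theorem q_diff (a b : G) :
    (1 - y a) * (1 - y b) / 4 +
      ((Nat.card (Subgroup.zpowers a ⊓ Subgroup.zpowers b : Subgroup G) : ℝ) - 1) *
        (5 - (Nat.card (Subgroup.zpowers a ⊓ Subgroup.zpowers b : Subgroup G) : ℝ)) /
          (12 * ((orderOf a : ℝ) * orderOf b)) ≤ q a b := by
  classical
  have hm : 0 < orderOf a := orderOf_pos a
  have hm' : 0 < orderOf b := orderOf_pos b
  set R : Finset (ℕ × ℕ) := (range (orderOf a) ×ˢ range (orderOf b)).filter
    (fun p => a ^ p.1 = b ^ p.2) with hR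
  have hRm : ∀ p ∈ R, p.1 < orderOf a ∧ p.2 < orderOf b ∧ a ^ p.1 = b ^ p.2 := by
    intro p hp
    rw [hR, mem_filter, mem_product, mem_range, mem_range] at hp
    exact ⟨hp.1.1, hp.1.2, hp.2⟩
  have hP : P a b = ∑ p ∈ R, eps (orderOf a) p.1 * eps (orderOf b) p.2 := by
    rw [hR, sum_filter, sum_product]
    rfl
  have inja : ∀ k l, k < orderOf a → l < orderOf a → a ^ k = a ^ l → k = l := by
    intro k l hk hl h
    exact pow_injOn_Iio_orderOf (Set.mem_Iio.2 hk) (Set.mem_Iio.2 hl) h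
  have injb : ∀ k l, k < orderOf b → l < orderOf b → b ^ k = b ^ l → k = l := by
    intro k l hk hl h
    exact pow_injOn_Iio_orderOf (Set.mem_Iio.2 hk) (Set.mem_Iio.2 hl) h
  have h00 : ((0, 0) : ℕ × ℕ) ∈ R := by
    rw [hR, mem_filter, mem_product, mem_range, mem_range]
    exact ⟨⟨hm, hm'⟩, by simp⟩
  set C : Subgroup G := Subgroup.zpowers a ⊓ Subgroup.zpowers b with hC
  have hcard : Nat.card C ≤ R.card := by
    have h1 : Nat.card C = (univ.filter fun s : G => s ∈ C).card := by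
      rw [Nat.card_eq_fintype_card, Fintype.card_subtype]
    rw [h1]
    refine le_trans (card_le_card ?_) (card_image_le (s := R) (f := fun p => a ^ p.1))
    intro s hs
    rw [mem_filter] at hs
    obtain ⟨hsa, hsb⟩ := Subgroup.mem_inf.1 hs.2
    rw [mem_zpowers_iff_mem_range_orderOf, mem_image] at hsa hsb
    obtain ⟨k, hk, hk2⟩ := hsa
    obtain ⟨l, hl, hl2⟩ := hsb
    rw [mem_image]
    refine ⟨(k, l), ?_, hk2⟩
    rw [hR, mem_filter, mem_product]
    exact ⟨⟨hk, hl⟩, hk2.trans hl2.symm⟩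
  -- the imaginary parts
  have hA : ∑ p ∈ R.erase (0, 0), (eps (orderOf a) p.1).im ^ 2 ≤
      ((Nat.card C : ℝ) - 1) * ((Nat.card C : ℝ) - 2) / 12 := by
    have h1 : ∑ p ∈ R.erase (0, 0), (eps (orderOf a) p.1).im ^ 2 =
        ∑ k ∈ (R.erase (0, 0)).image Prod.fst, (eps (orderOf a) k).im ^ 2 := by
      rw [sum_image]
      intro p hp p' hp' h
      obtain ⟨-, g1, g2⟩ := hRm p (mem_of_mem_erase hp)
      obtain ⟨-, g1', g2'⟩ := hRm p' (mem_of_mem_erase hp')
      have h' : p.1 = p'.1 := h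
      refine Prod.ext h' (injb _ _ g1 g1' ?_)
      rw [← g2, ← g2', h']
    rw [h1]
    refine sum_im_le a C inf_le_left _ ?_
    intro k hk
    rw [mem_image] at hk
    obtain ⟨p, hp, rfl⟩ := hk
    obtain ⟨g0, g1, g2⟩ := hRm p (mem_of_mem_erase hp)
    refine ⟨g0, Subgroup.mem_inf.2 ⟨Subgroup.npow_mem_zpowers a _, ?_⟩⟩
    rw [g2]
    exact Subgroup.npow_mem_zpowers b _
  have hB : ∑ p ∈ R.erase (0, 0), (eps (orderOf b) p.2).im ^ 2 ≤
      ((Nat.card C : ℝ) - 1) * ((Nat.card C : ℝ) - 2) / 12 := by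
    have h1 : ∑ p ∈ R.erase (0, 0), (eps (orderOf b) p.2).im ^ 2 =
        ∑ k ∈ (R.erase (0, 0)).image Prod.snd, (eps (orderOf b) k).im ^ 2 := by
      rw [sum_image]
      intro p hp p' hp' h
      obtain ⟨g0, -, g2⟩ := hRm p (mem_of_mem_erase hp)
      obtain ⟨g0', -, g2'⟩ := hRm p' (mem_of_mem_erase hp')
      have h' : p.2 = p'.2 := h
      refine Prod.ext (inja _ _ g0 g0' ?_) h'
      rw [g2, g2', h']
    rw [h1]
    refine sum_im_le b C inf_le_right _ ?_
    intro k hk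
    rw [mem_image] at hk
    obtain ⟨p, hp, rfl⟩ := hk
    obtain ⟨g0, g1, g2⟩ := hRm p (mem_of_mem_erase hp)
    refine ⟨g1, Subgroup.mem_inf.2 ⟨?_, Subgroup.npow_mem_zpowers b _⟩⟩
    rw [← g2]
    exact Subgroup.npow_mem_zpowers a _
  -- the terms
  have hterm : ∀ p ∈ R.erase (0, 0), 1 / 4 - (eps (orderOf a) p.1).im ^ 2 / 2 -
      (eps (orderOf b) p.2).im ^ 2 / 2 ≤ (eps (orderOf a) p.1 * eps (orderOf b) p.2).re := by
    intro p hp
    obtain ⟨hp0, hpR⟩ := mem_erase.1 hp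
    obtain ⟨g0, g1, g2⟩ := hRm p hpR
    have k1 : 0 < p.1 := by
      rcases Nat.eq_zero_or_pos p.1 with h | h
      · exfalso
        apply hp0
        refine Prod.ext h ?_
        rw [h, pow_zero] at g2
        exact injb _ _ g1 hm' (by rw [← g2, pow_zero])
      · exact h
    have k2 : 0 < p.2 := by
      rcases Nat.eq_zero_or_pos p.2 with h | h
      · exfalso
        apply hp0
        refine Prod.ext ?_ h
        rw [h, pow_zero] at g2
        exact inja _ _ g0 hm (by rw [g2, pow_zero])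
      · exact h
    rw [Complex.mul_re, re_eps k1 g0, re_eps k2 g1]
    nlinarith [sq_nonneg ((eps (orderOf a) p.1).im - (eps (orderOf b) p.2).im)]
  have hPre : ((orderOf a : ℝ) - 1) * ((orderOf b : ℝ) - 1) / 4 + ((Nat.card C : ℝ) - 1) *
      (5 - (Nat.card C : ℝ)) / 12 ≤ (P a b).re := by
    rw [hP, Complex.re_sum, ← add_sum_erase R _ h00]
    have h0 : (eps (orderOf a) ((0, 0) : ℕ × ℕ).1 * eps (orderOf b) ((0, 0) : ℕ × ℕ).2).re =
        ((orderOf a : ℝ) - 1) * ((orderOf b : ℝ) - 1) / 4 := by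
      rw [eps_zero hm, eps_zero hm', ← Complex.ofReal_mul, Complex.ofReal_re]
      ring
    rw [h0]
    have h1 := sum_le_sum hterm
    rw [sum_sub_distrib, sum_sub_distrib, ← sum_div, ← sum_div, ← sum_div, sum_const,
      card_erase_of_mem h00, nsmul_eq_mul] at h1
    have h2 : ((Nat.card C : ℝ) - 1) ≤ ((R.card - 1 : ℕ) : ℝ) := by
      have h3 : 1 ≤ R.card := card_pos.2 ⟨_, h00⟩
      rw [Nat.cast_sub h3, Nat.cast_one]
      have h4 : (Nat.card C : ℝ) ≤ R.card := by exact_mod_cast hcard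
      linarith
    have h5 : ((Nat.card C : ℝ) - 1) * (5 - (Nat.card C : ℝ)) / 12 = ((Nat.card C : ℝ) - 1) / 4 -
        ((Nat.card C : ℝ) - 1) * ((Nat.card C : ℝ) - 2) / 12 := by ring
    rw [h5]
    linarith
  -- division
  have hmR : (0 : ℝ) < orderOf a := by exact_mod_cast hm
  have hmR' : (0 : ℝ) < orderOf b := by exact_mod_cast hm'
  have hpos : (0 : ℝ) < (orderOf a : ℝ) * orderOf b := mul_pos hmR hmR'
  unfold q y
  rw [le_div_iff₀ hpos]
  refine le_trans (le_of_eq ?_) hPre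
  field_simp

end Pool.Agent.H92.OG
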