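import Pool.Agent.H92.OG.Defs

set_option autoImplicit false

/-!
# `q a a` (note 5773, (2))

`a ^ k = a ^ l` with `k, l < orderOf a` only for `k = l`, so `P a a = ∑ k, eps m k ^ 2` and the real part is
`∑ re ^ 2 - ∑ im ^ 2 = m (m - 1) / 4 - (m - 1)(m - 2) / 12` (`eps_zero`, `re_eps`, `sum_im_sq`; the sum of the
`re ^ 2` is computed inside the proof of `sum_im_sq`).
-/

namespace Pool.Agent.H92.OG

open Finset Pool.Agent.H82.CO

variable {G : Type} [Group G] [Fintype G]

theorem sum_re_sq {m : ℕ} (hm : 0 < m) :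
    ∑ k ∈ range m, (eps m k).re ^ 2 = (m : ℝ) * (m - 1) / 4 := by
  obtain ⟨n, rfl⟩ : ∃ n, m = n + 1 := ⟨m - 1, by omega⟩
  rw [sum_range_succ', eps_zero hm, Complex.ofReal_re]
  have h4 : ∀ k ∈ range n, (eps (n + 1) (k + 1)).re ^ 2 = 1 / 4 := by
    intro k hk
    rw [re_eps (by omega) (by have := mem_range.1 hk; omega)]
    norm_num
  rw [sum_congr rfl h4, sum_const, card_range, nsmul_eq_mul]
  push_cast
  ring

theorem q_self (a : G) : q a a = (1 - y a ^ 2) / 6 := by
  classical
  have hm := orderOf_pos a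
  have hm' : (orderOf a : ℝ) ≠ 0 := by exact_mod_cast hm.ne'
  have h1 : P a a = ∑ k ∈ range (orderOf a), eps (orderOf a) k ^ 2 := by
    unfold P
    refine sum_congr rfl fun k hk => ?_
    rw [sum_eq_single k]
    · rw [if_pos rfl, sq]
    · intro l hl hlk
      rw [if_neg]
      intro h
      have h5 := pow_inj_mod.1 h
      rw [Nat.mod_eq_of_lt (mem_range.1 hk), Nat.mod_eq_of_lt (mem_range.1 hl)] at h5
      exact hlk h5.symm
    · intro h
      exact absurd hk h
  have h2 : (P a a).re = (((orderOf a : ℝ) ^ 2) - 1) / 6 := by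
    rw [h1, Complex.re_sum]
    have h3 : ∀ k ∈ range (orderOf a), (eps (orderOf a) k ^ 2).re =
        (eps (orderOf a) k).re ^ 2 - (eps (orderOf a) k).im ^ 2 := by
      intro k _
      rw [sq, Complex.mul_re]
      ring
    rw [sum_congr rfl h3, sum_sub_distrib, sum_re_sq hm, sum_im_sq hm]
    ring
  rw [q, h2, y]
  field_simp

end Pool.Agent.H92.OG
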