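import Mathlib

set_option autoImplicit false

/-!
# A permutation of the residues is far from the identity (note 5773, (3))

`m` odd, `u` prime to `m`, `u ≢ 1` modulo `m`. The difference `k - (u * k) % m` is congruent to `(1 - u) k` modulo
`m`, so its square is at least `ψ ^ 2`, `ψ` the distance of `(1 - u) k` from the multiples of `m`. Let
`f = gcd (u - 1, m)`, `m = f e`, `e ≥ 3` odd. `k ↦ (1 - u) k` modulo `m` takes each of the values `f j`, `j < e`,
exactly `f` times (a homomorphism of `ZMod m` with kernel of order `f`; or `u - 1 = f v` with `v` prime to `e`,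
`k ↦ v k` permutes the residues modulo `e`), and the distance of `f j` from the multiples of `m` is
`f * min j (e - j)`. So the sum is at least
`f * ∑ j < e, (f * min j (e - j)) ^ 2 = f ^ 3 * e (e ^ 2 - 1) / 12 = m ^ 3 (1 - 1 / e ^ 2) / 12 ≥ 2 m ^ 3 / 27`.
-/

namespace Pool.Agent.H92.OG

open Finset

/-- Multiplication by a unit permutes the residues. -/
private theorem sum_mul_mod {m u : ℕ} (hm : 0 < m) (hu : u.Coprime m) (G : ℕ → ℝ) :
    ∑ k ∈ range m, G ((u * k) % m) = ∑ k ∈ range m, G k := by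
  have hinj : Set.InjOn (fun k => (u * k) % m) (range m : Set ℕ) := by
    intro a ha b hb hab
    have ha' : a < m := by simpa using ha
    have hb' : b < m := by simpa using hb
    have h1 : u * a ≡ u * b [MOD m] := hab
    have h2 : a ≡ b [MOD m] := Nat.ModEq.cancel_left_of_coprime (by rw [Nat.gcd_comm]; exact hu) h1
    have h3 : a % m = b % m := h2
    rwa [Nat.mod_eq_of_lt ha', Nat.mod_eq_of_lt hb'] at h3
  have himg : (range m).image (fun k => (u * k) % m) = range m := by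
    apply Finset.eq_of_subset_of_card_le
    · intro x hx
      obtain ⟨k, _, rfl⟩ := Finset.mem_image.1 hx
      exact Finset.mem_range.2 (Nat.mod_lt _ hm)
    · rw [Finset.card_image_of_injOn hinj]
  calc ∑ k ∈ range m, G ((u * k) % m)
      = ∑ x ∈ (range m).image (fun k => (u * k) % m), G x :=
        (Finset.sum_image (f := G) hinj).symm
    _ = ∑ k ∈ range m, G k := by rw [himg]

/-- A function of the residue modulo `e`, summed over `f` periods. -/
private theorem sum_periods (e v f : ℕ) (G : ℕ → ℝ) :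
    ∑ k ∈ range (f * e), G ((v * k) % e) = f * ∑ k ∈ range e, G ((v * k) % e) := by
  induction f with
  | zero => simp
  | succ f ih =>
    rw [Nat.succ_mul, Finset.sum_range_add, ih]
    have h : ∑ x ∈ range e, G ((v * (f * e + x)) % e) = ∑ k ∈ range e, G ((v * k) % e) := by
      refine Finset.sum_congr rfl fun x _ => ?_
      have h1 : v * (f * e + x) = v * x + e * (v * f) := by ring
      rw [h1, Nat.add_mul_mod_self_left]
    rw [h]
    push_cast
    ring

private theorem sum_sq (h : ℕ) :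
    ∑ k ∈ range h, ((k : ℝ) + 1) ^ 2 = (h : ℝ) * ((h : ℝ) + 1) * (2 * (h : ℝ) + 1) / 6 := by
  induction h with
  | zero => simp
  | succ h ih =>
    rw [Finset.sum_range_succ, ih]
    push_cast
    ring

/-- The sum of the squared distances. -/
private theorem sum_dist (h : ℕ) :
    ∑ j ∈ range (2 * h + 1), ((min j (2 * h + 1 - j) : ℕ) : ℝ) ^ 2 =
      h * (h + 1) * (2 * h + 1) / 3 := by
  have h0 : 2 * h + 1 = (h + 1) + h := by ring
  have h1 : ∑ j ∈ range (2 * h + 1), ((min j (2 * h + 1 - j) : ℕ) : ℝ) ^ 2 =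
      ∑ j ∈ range (h + 1), ((min j (2 * h + 1 - j) : ℕ) : ℝ) ^ 2 +
        ∑ i ∈ range h, ((min (h + 1 + i) (2 * h + 1 - (h + 1 + i)) : ℕ) : ℝ) ^ 2 := by
    rw [h0, Finset.sum_range_add]
  have h2 : ∑ j ∈ range (h + 1), ((min j (2 * h + 1 - j) : ℕ) : ℝ) ^ 2 =
      ∑ j ∈ range h, ((j : ℝ) + 1) ^ 2 := by
    rw [Finset.sum_range_succ']
    have hz : ((min 0 (2 * h + 1 - 0) : ℕ) : ℝ) ^ 2 = 0 := by simp
    rw [hz, add_zero]
    refine Finset.sum_congr rfl fun j hj => ?_
    have hj' := Finset.mem_range.1 hj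
    have h3 : min (j + 1) (2 * h + 1 - (j + 1)) = j + 1 := by omega
    rw [h3]
    push_cast
    ring
  have h4 : ∑ i ∈ range h, ((min (h + 1 + i) (2 * h + 1 - (h + 1 + i)) : ℕ) : ℝ) ^ 2 =
      ∑ j ∈ range h, ((j : ℝ) + 1) ^ 2 := by
    rw [← Finset.sum_range_reflect (fun j => ((j : ℝ) + 1) ^ 2) h]
    refine Finset.sum_congr rfl fun i hi => ?_
    have hi' := Finset.mem_range.1 hi
    have h5 : min (h + 1 + i) (2 * h + 1 - (h + 1 + i)) = (h - 1 - i) + 1 := by omega
    rw [h5]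
    push_cast
    ring
  rw [h1, h2, h4, sum_sq]
  ring

theorem perm_far {m u : ℕ} (hm : Odd m) (hu : u.Coprime m) (hu1 : ¬ u ≡ 1 [MOD m]) :
    2 / 27 * (m : ℝ) ^ 3 ≤ ∑ k ∈ range m, ((k : ℝ) - ((u * k) % m : ℕ)) ^ 2 := by
  have hm0 : 0 < m := hm.pos
  have hm1 : m ≠ 1 := by
    rintro rfl
    exact hu1 (Nat.modEq_one)
  have hu0 : 0 < u := by
    rcases Nat.eq_zero_or_pos u with h | h
    · subst h
      rw [Nat.coprime_zero_left] at hu
      exact absurd hu hm1
    · exact h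
  obtain ⟨w, rfl⟩ : ∃ w, u = w + 1 := ⟨u - 1, by omega⟩
  -- the greatest common divisor
  set f : ℕ := Nat.gcd w m with hf
  have hf0 : 0 < f := Nat.gcd_pos_of_pos_right _ hm0
  obtain ⟨v, hv⟩ : f ∣ w := Nat.gcd_dvd_left _ _
  obtain ⟨e, he⟩ : f ∣ m := Nat.gcd_dvd_right _ _
  have hve : v.Coprime e := by
    have h1 : f * Nat.gcd v e = f * 1 := by
      rw [← Nat.gcd_mul_left, ← hv, ← he, mul_one]
    exact Nat.eq_of_mul_eq_mul_left hf0 h1
  have he0 : 0 < e := by
    rcases Nat.eq_zero_or_pos e with h | h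
    · rw [h, mul_zero] at he
      omega
    · exact h
  have heodd : Odd e := by
    rw [he] at hm
    exact (Nat.odd_mul.1 hm).2
  have he1 : e ≠ 1 := by
    intro h
    apply hu1
    have hmf : m = f := by rw [he, h, mul_one]
    have hd : m ∣ w := by rw [hmf]; exact Nat.gcd_dvd_left _ _
    have h2 : w ≡ 0 [MOD m] := (Nat.modEq_zero_iff_dvd).2 hd
    simpa using h2.add_right 1
  obtain ⟨h, hh⟩ := heodd
  have hh1 : 1 ≤ h := by omega
  -- the pointwise bound
  have hpt : ∀ k ∈ range m, ((f : ℝ) * ((min ((v * k) % e) (e - (v * k) % e) : ℕ) : ℝ)) ^ 2 ≤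
      ((k : ℝ) - (((w + 1) * k) % m : ℕ)) ^ 2 := by
    intro k hk
    have hkm : k < m := Finset.mem_range.1 hk
    set r : ℕ := (v * k) % e with hr
    have hre : r < e := Nat.mod_lt _ he0
    have h1 : (w * k) % m = f * r := by
      rw [hr, ← Nat.mul_mod_mul_left, ← he, ← mul_assoc, ← hv]
    have h2 : ((w + 1) * k) % m = (f * r + k) % m := by
      rw [add_mul, one_mul, Nat.add_mod, h1, Nat.mod_eq_of_lt hkm]
    have hfr : f * r < m := by
      rw [he]
      exact Nat.mul_lt_mul_of_pos_left hre hf0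
    rw [h2]
    have hcase : (f * r + k) % m = f * r + k ∨ (f * r + k) % m + m = f * r + k := by
      rcases lt_or_ge (f * r + k) m with h3 | h3
      · exact Or.inl (Nat.mod_eq_of_lt h3)
      · right
        rw [Nat.mod_eq_sub_mod h3, Nat.mod_eq_of_lt (by omega)]
        omega
    have hmR : (m : ℝ) = f * e := by rw [he]; push_cast; ring
    rcases hcase with h3 | h3
    · rw [h3]
      have h4 : (k : ℝ) - ((f * r + k : ℕ) : ℝ) = -((f : ℝ) * r) := by push_cast; ring
      rw [h4, neg_sq]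
      apply pow_le_pow_left₀ (by positivity)
      apply mul_le_mul_of_nonneg_left _ (by positivity)
      exact_mod_cast min_le_left _ _
    · have h4 : ((f * r + k) % m : ℕ) + (m : ℝ) = (f : ℝ) * r + k := by exact_mod_cast h3
      have h5 : (k : ℝ) - (((f * r + k) % m : ℕ) : ℝ) = (f : ℝ) * ((e - r : ℕ) : ℝ) := by
        rw [Nat.cast_sub hre.le]
        have : (((f * r + k) % m : ℕ) : ℝ) = (f : ℝ) * r + k - f * e := by
          rw [← hmR]; linarith
        rw [this]
        ring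
      rw [h5]
      apply pow_le_pow_left₀ (by positivity)
      apply mul_le_mul_of_nonneg_left _ (by positivity)
      exact_mod_cast min_le_right _ _
  refine le_trans ?_ (Finset.sum_le_sum hpt)
  have hsum : ∑ k ∈ range m, ((f : ℝ) * ((min ((v * k) % e) (e - (v * k) % e) : ℕ) : ℝ)) ^ 2 =
      f * (f ^ 2 * (h * (h + 1) * (2 * h + 1) / 3)) := by
    have h1 : range m = range (f * e) := by rw [← he]
    rw [h1, sum_periods e v f (fun j => ((f : ℝ) * ((min j (e - j) : ℕ) : ℝ)) ^ 2),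
      sum_mul_mod he0 hve (fun j => ((f : ℝ) * ((min j (e - j) : ℕ) : ℝ)) ^ 2)]
    congr 1
    rw [← sum_dist h, Finset.mul_sum, hh]
    refine Finset.sum_congr rfl fun j _ => ?_
    ring
  rw [hsum]
  have hmR : (m : ℝ) = f * (2 * h + 1) := by rw [he, hh]; push_cast; ring
  have hhR : (1 : ℝ) ≤ h := by exact_mod_cast hh1
  have hfR : (0 : ℝ) < f := by exact_mod_cast hf0
  rw [hmR]
  have key : 2 / 27 * (2 * (h : ℝ) + 1) ^ 3 ≤ h * (h + 1) * (2 * h + 1) / 3 := by
    have h6 : 0 ≤ (2 * (h : ℝ) + 1) * (((h : ℝ) - 1) * (h + 2)) := by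
      apply mul_nonneg (by positivity)
      apply mul_nonneg (by linarith) (by positivity)
    nlinarith [h6]
  have h7 : (f : ℝ) ^ 3 * (2 / 27 * (2 * (h : ℝ) + 1) ^ 3) ≤
      (f : ℝ) ^ 3 * ((h : ℝ) * (h + 1) * (2 * h + 1) / 3) :=
    mul_le_mul_of_nonneg_left key (by positivity)
  have h8 : 2 / 27 * ((f : ℝ) * (2 * (h : ℝ) + 1)) ^ 3 =
      (f : ℝ) ^ 3 * (2 / 27 * (2 * (h : ℝ) + 1) ^ 3) := by ring
  have h9 : (f : ℝ) * ((f : ℝ) ^ 2 * ((h : ℝ) * (h + 1) * (2 * h + 1) / 3)) =
      (f : ℝ) ^ 3 * ((h : ℝ) * (h + 1) * (2 * h + 1) / 3) := by ring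
  rw [h8, h9]
  exact h7

theorem perm_sum {m u : ℕ} (hm : 0 < m) (hu : u.Coprime m) :
    ∑ k ∈ range m, (((u * k) % m : ℕ) : ℝ) ^ 2 = ∑ k ∈ range m, (k : ℝ) ^ 2 :=
  sum_mul_mod hm hu fun k => (k : ℝ) ^ 2

end Pool.Agent.H92.OG
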