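import Pool.Agent.H92.OG.Defs

set_option autoImplicit false

/-!
# `P a (a ^ u)` (note 5773, (3))

`m = orderOf a = orderOf (a ^ u)`. For `l < m` the only `k < m` with `a ^ k = (a ^ u) ^ l` is `(u l) % m`, and
`zeta m ^ (i * ((u l) % m)) = zeta m ^ (i u l)`. So
`P = ∑ l, ∑ i, ∑ j, (i/m)(j/m) zeta m ^ ((i u + j) l)`; sum over `l`: `m` if `m ∣ i u + j`, else `0` (`ortho` with
`a = (i u) % m` and the conjugate, `zeta m ^ (j l) = conj (zeta m ^ ((m - j) l))`, or the geometric sum). For
`0 < i` the only such `j < m` is `m - (u i) % m`; for `i = 0` the factor `i/m` is zero.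
-/

namespace Pool.Agent.H92.OG

open Finset Pool.Agent.H82.CO

variable {G : Type} [Group G] [Fintype G]

private theorem pw_geo {m : ℕ} (hm : 0 < m) (n : ℕ) :
    ∑ l ∈ range m, zeta m ^ (n * l) = if m ∣ n then (m : ℂ) else 0 := by
  split_ifs with h
  · obtain ⟨c, rfl⟩ := h
    have h1 : ∀ l ∈ range m, zeta m ^ (m * c * l) = 1 := fun l _ => by
      rw [mul_assoc, pow_mul, zeta_pow hm, one_pow]
    rw [sum_congr rfl h1]
    simp
  · have hw : zeta m ^ n - 1 ≠ 0 := fun h1 =>
      h ((zeta_prim hm).dvd_of_pow_eq_one n (by linear_combination h1))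
    have h1 := geom_sum_mul (zeta m ^ n) m
    rw [← pow_mul, mul_comm n m, pow_mul, zeta_pow hm, one_pow, sub_self] at h1
    rw [sum_congr rfl fun l _ => pow_mul (zeta m) n l]
    exact (mul_eq_zero.1 h1).resolve_right hw

private theorem pw_mod {m : ℕ} (hm : 0 < m) (n : ℕ) : eps m (n % m) = eps m n := by
  have h1 : zeta m ^ n = zeta m ^ (n % m) := by
    conv_lhs => rw [← Nat.div_add_mod n m]
    rw [pow_add, pow_mul, zeta_pow hm, one_pow, one_mul]
  unfold eps
  refine sum_congr rfl fun a _ => ?_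
  rw [mul_comm a (n % m), pow_mul, ← h1, ← pow_mul, mul_comm n a]

private theorem pw_dvd {m u i j : ℕ} (hi : 0 < (u * i) % m) (hj : j < m) :
    m ∣ i * u + j ↔ j = m - (u * i) % m := by
  have hr : (u * i) % m < m := Nat.mod_lt _ (by omega)
  have h1 : i * u = m * ((u * i) / m) + (u * i) % m := by
    rw [mul_comm i u, Nat.div_add_mod]
  rw [h1, add_assoc, Nat.dvd_add_right (Dvd.intro _ rfl)]
  constructor
  · rintro ⟨c, hc⟩
    have h2 : c = 1 := by
      rcases c with _ | _ | c
      · omega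
      · rfl
      · exfalso
        have h3 : m * 2 ≤ m * (c + 1 + 1) := Nat.mul_le_mul_left m (by omega)
        omega
    rw [h2, mul_one] at hc
    omega
  · intro h2
    exact ⟨1, by omega⟩

theorem P_pow (a : G) {u : ℕ} (hu : u.Coprime (orderOf a)) :
    P a (a ^ u) = ((1 / (orderOf a : ℝ) * ∑ k ∈ range (orderOf a),
      (k : ℝ) * ((orderOf a : ℝ) - ((u * k) % orderOf a : ℕ)) : ℝ) : ℂ) := by
  classical
  have hm : 0 < orderOf a := orderOf_pos a
  have ho : orderOf (a ^ u) = orderOf a := Nat.Coprime.orderOf_pow hu.symm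
  unfold P
  rw [ho, sum_comm]
  have h1 : ∀ l ∈ range (orderOf a), (∑ k ∈ range (orderOf a),
      if a ^ k = (a ^ u) ^ l then eps (orderOf a) k * eps (orderOf a) l else 0) =
      eps (orderOf a) (u * l) * eps (orderOf a) l := by
    intro l _
    rw [sum_eq_single ((u * l) % orderOf a)]
    · rw [if_pos, pw_mod hm]
      rw [← pow_mul, pow_mod_orderOf]
    · intro k hk hne
      rw [if_neg]
      intro h2
      apply hne
      rw [← pow_mul, ← pow_mod_orderOf a (u * l)] at h2
      exact pow_injOn_Iio_orderOf (mem_range.1 hk) (Nat.mod_lt _ hm) h2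
    · intro h2
      exact absurd (mem_range.2 (Nat.mod_lt _ hm)) h2
  rw [sum_congr rfl h1]
  generalize hmm : orderOf a = m at *
  have hm0 : (m : ℂ) ≠ 0 := by exact_mod_cast hm.ne'
  have h2 : ∀ l ∈ range m, eps m (u * l) * eps m l = ∑ i ∈ range m, ∑ j ∈ range m,
      ((i : ℂ) / m) * ((j : ℂ) / m) * zeta m ^ ((i * u + j) * l) := by
    intro l _
    rw [eps, eps, sum_mul_sum]
    refine sum_congr rfl fun i _ => sum_congr rfl fun j _ => ?_
    rw [add_mul, pow_add, mul_assoc i u l]
    ring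
  rw [sum_congr rfl h2, sum_comm, Complex.ofReal_mul, Complex.ofReal_sum, mul_sum]
  refine sum_congr rfl fun i hi => ?_
  rw [sum_comm]
  have h3 : ∀ j ∈ range m, ∑ l ∈ range m,
      ((i : ℂ) / m) * ((j : ℂ) / m) * zeta m ^ ((i * u + j) * l) =
      if m ∣ i * u + j then ((i : ℂ) / m) * j else 0 := by
    intro j _
    rw [← mul_sum, pw_geo hm]
    split_ifs
    · field_simp
    · rw [mul_zero]
  rw [sum_congr rfl h3]
  rcases Nat.eq_zero_or_pos i with hi0 | hi0
  · subst hi0
    simp
  · have hlt : i < m := mem_range.1 hi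
    have hr0 : 0 < (u * i) % m := by
      rcases Nat.eq_zero_or_pos ((u * i) % m) with h4 | h4
      · exfalso
        have h5 : m ∣ i := hu.symm.dvd_of_dvd_mul_left (Nat.dvd_of_mod_eq_zero h4)
        exact absurd (Nat.le_of_dvd hi0 h5) (by omega)
      · exact h4
    have hrlt : (u * i) % m < m := Nat.mod_lt _ hm
    rw [sum_eq_single (m - (u * i) % m)]
    · rw [if_pos ((pw_dvd hr0 (by omega)).2 rfl), Nat.cast_sub hrlt.le]
      push_cast
      field_simp
    · intro j hj hne
      rw [if_neg]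
      intro h4
      exact hne ((pw_dvd hr0 (mem_range.1 hj)).1 h4)
    · intro h4
      exact absurd (mem_range.2 (by omega)) h4

end Pool.Agent.H92.OG
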