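import Pool.Agent.H92.OG.Perm
import Pool.Agent.H92.OG.Pow

set_option autoImplicit false

/-!
# Two generators of the same group (note 5773, (3))
-/

namespace Pool.Agent.H92.OG

open Finset Pool.Agent.H82.CO

variable {G : Type} [Group G] [Fintype G]

theorem sum_id_range (m : ℕ) : ∑ k ∈ range m, (k : ℝ) = m * (m - 1) / 2 := by
  induction m with
  | zero => simp
  | succ m ih => rw [sum_range_succ, ih]; push_cast; ring

theorem q_same {a b : G} (ho : Odd (orderOf a)) (h : Subgroup.zpowers a = Subgroup.zpowers b)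
    (hab : a ≠ b) : (1 - y a ^ 2) / 6 + 1 / 27 ≤ q a b := by
  have hm := orderOf_pos a
  have hm' : (0 : ℝ) < orderOf a := by exact_mod_cast hm
  have hmb : orderOf b = orderOf a := by
    rw [← Nat.card_zpowers, ← Nat.card_zpowers, h]
  have hb : b ∈ Subgroup.zpowers a := by rw [h]; exact Subgroup.mem_zpowers b
  rw [← mem_powers_iff_mem_zpowers] at hb
  obtain ⟨u, rfl⟩ := hb
  have hu : u.Coprime (orderOf a) := by
    have h1 := orderOf_pow (n := u) a
    rw [hmb] at h1
    have h2 : Nat.gcd (orderOf a) u = 1 := by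
      have h3 := Nat.gcd_dvd_left (orderOf a) u
      have h4 : 0 < Nat.gcd (orderOf a) u := Nat.gcd_pos_of_pos_left _ hm
      have h5 : orderOf a = orderOf a / Nat.gcd (orderOf a) u * Nat.gcd (orderOf a) u :=
        (Nat.div_mul_cancel h3).symm
      rw [← h1] at h5
      nlinarith
    rw [Nat.coprime_comm]
    exact h2
  have hu1 : ¬ u ≡ 1 [MOD orderOf a] := by
    intro h1
    apply hab
    have h2 := (pow_eq_pow_iff_modEq (x := a) (n := u) (m := 1)).2 h1
    rw [pow_one] at h2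
    exact h2.symm
  have h1 := perm_far ho hu hu1
  have h2 := perm_sum hm hu
  have h3 : (P a (a ^ u)).re = 1 / (orderOf a : ℝ) * ∑ k ∈ range (orderOf a),
      (k : ℝ) * ((orderOf a : ℝ) - ((u * k) % orderOf a : ℕ)) := by
    rw [P_pow a hu, Complex.ofReal_re]
  have h4 : ∑ k ∈ range (orderOf a), (k : ℝ) * ((orderOf a : ℝ) - ((u * k) % orderOf a : ℕ)) =
      (orderOf a : ℝ) * ∑ k ∈ range (orderOf a), (k : ℝ) -
        ∑ k ∈ range (orderOf a), (k : ℝ) ^ 2 +
        1 / 2 * ∑ k ∈ range (orderOf a), ((k : ℝ) - ((u * k) % orderOf a : ℕ)) ^ 2 := by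
    have h5 : ∑ k ∈ range (orderOf a), ((k : ℝ) - ((u * k) % orderOf a : ℕ)) ^ 2 =
        ∑ k ∈ range (orderOf a), (k : ℝ) ^ 2 + ∑ k ∈ range (orderOf a),
          (((u * k) % orderOf a : ℕ) : ℝ) ^ 2 - 2 * ∑ k ∈ range (orderOf a),
          (k : ℝ) * ((u * k) % orderOf a : ℕ) := by
      rw [mul_sum, ← sum_add_distrib, ← sum_sub_distrib]
      exact sum_congr rfl fun k _ => by ring
    have h6 : ∑ k ∈ range (orderOf a), (k : ℝ) * ((orderOf a : ℝ) - ((u * k) % orderOf a : ℕ)) =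
        (orderOf a : ℝ) * ∑ k ∈ range (orderOf a), (k : ℝ) - ∑ k ∈ range (orderOf a),
          (k : ℝ) * ((u * k) % orderOf a : ℕ) := by
      rw [mul_sum, ← sum_sub_distrib]
      exact sum_congr rfl fun k _ => by ring
    rw [h6, h5, h2]
    ring
  rw [sum_id_range, sum_sq_range] at h4
  have h5 : ((orderOf a : ℝ) ^ 2 - 1) / 6 + (orderOf a : ℝ) ^ 2 / 27 ≤ (P a (a ^ u)).re := by
    rw [h3, h4]
    have h6 : ((orderOf a : ℝ) ^ 2 - 1) / 6 + (orderOf a : ℝ) ^ 2 / 27 =
        1 / (orderOf a : ℝ) * ((orderOf a : ℝ) * (orderOf a * (orderOf a - 1) / 2) -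
          (orderOf a - 1) * orderOf a * (2 * orderOf a - 1) / 6 +
          1 / 2 * (2 / 27 * (orderOf a : ℝ) ^ 3)) := by
      field_simp
      ring
    rw [h6]
    refine mul_le_mul_of_nonneg_left ?_ (by positivity)
    linarith
  rw [q, hmb, le_div_iff₀ (mul_pos hm' hm'), y]
  refine le_trans (le_of_eq ?_) h5
  field_simp

end Pool.Agent.H92.OG
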